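import Pool.Agent.W223.RB.Stms

/-! RB-BGAP: few light points. -/

set_option autoImplicit false

namespace Pool.Agent.W863.RB

open Pool.Agent.W223.RB

theorem prop_points {x₁ y₁ x₂ y₂ : ℤ} (h1 : IsCoprime x₁ y₁) (h2 : IsCoprime x₂ y₂)
    (h : x₁ * y₂ = x₂ * y₁) : (x₁ = x₂ ∧ y₁ = y₂) ∨ (x₁ = -x₂ ∧ y₁ = -y₂) := by
  have a1 : x₁ ∣ x₂ := h1.dvd_of_dvd_mul_right (h ▸ Dvd.intro _ rfl)
  have a2 : x₂ ∣ x₁ := h2.dvd_of_dvd_mul_right (h.symm ▸ Dvd.intro _ rfl)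
  have b1 : y₁ ∣ y₂ := h1.symm.dvd_of_dvd_mul_left (h.symm ▸ Dvd.intro_left _ rfl)
  have b2 : y₂ ∣ y₁ := h2.symm.dvd_of_dvd_mul_left (h ▸ Dvd.intro_left _ rfl)
  have a := Int.associated_iff.1 (associated_of_dvd_dvd a1 a2)
  have b := Int.associated_iff.1 (associated_of_dvd_dvd b1 b2)
  rcases a with a | a <;> rcases b with b | b
  · exact Or.inl ⟨a, b⟩
  · rw [a, b] at h
    have h3 : x₂ * y₂ = 0 := by linarith
    rcases mul_eq_zero.1 h3 with h4 | h4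
    · right; rw [h4] at a ⊢; exact ⟨by simpa using a, b⟩
    · left; rw [h4] at b ⊢; exact ⟨a, by simpa using b⟩
  · rw [a, b] at h
    have h3 : x₂ * y₂ = 0 := by linarith
    rcases mul_eq_zero.1 h3 with h4 | h4
    · left; rw [h4] at a ⊢; exact ⟨by simpa using a, b⟩
    · right; rw [h4] at b ⊢; exact ⟨a, by simpa using b⟩
  · exact Or.inr ⟨a, b⟩

theorem F_neg {d : ℕ} (α β : Fin d → ℤ) (x y : ℤ) : (F α β (-x) (-y)).natAbs = (F α β x y).natAbs := by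
  have h : F α β (-x) (-y) = (-1) ^ d * F α β x y := by
    unfold F V
    have : ∀ i : Fin d, α i * -x + β i * -y = (-1) * (α i * x + β i * y) := by intro i; ring
    rw [Finset.prod_congr rfl (fun i _ => this i), Finset.prod_mul_distrib, Finset.prod_const,
      Finset.card_univ, Fintype.card_fin]
  rw [h, Int.natAbs_mul, Int.natAbs_pow]
  simp

theorem tBGAP (hBCEL : Pool.Agent.W223.RB.StmtBCEL) (hBGP : Pool.Agent.W223.RB.StmtBGP) :
    Pool.Agent.W223.RB.StmtBGAP := by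
  intro d α β hg
  obtain ⟨K, hK⟩ := hBCEL d α β hg
  obtain ⟨ℓ₀, h1, h2⟩ := hBGP d α β hg
  refine ⟨K, ℓ₀, h1, fun S ℓ hS hℓ => ?_⟩
  obtain ⟨Φ, hΦ⟩ := hK S ℓ hS (h1.trans hℓ)
  have hc : ∀ R : LSet α β S ℓ, ∃ p : ℤ × ℤ, Pt α β p.1 p.2 ∧ Scale ℓ p.1 p.2 ∧
      Light α β S p.1 p.2 ∧ ∏ q ∈ (F α β p.1 p.2).natAbs.primeFactors, q = (R : ℕ) := by
    rintro ⟨R, x, y, h3, h4, h5, h6⟩
    exact ⟨(x, y), h3, h4, h5, h6⟩
  choose p hp1 hp2 hp3 hp4 using hc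
  have hinj : Function.Injective (fun R : LSet α β S ℓ => Φ (p R)) := by
    intro R R' hRR
    have hn := hΦ (p R).1 (p R).2 (p R').1 (p R').2 (hp1 R) (hp1 R') (hp2 R) (hp2 R') hRR
    have hx := h2 S ℓ hS hℓ _ _ _ _ (hp1 R) (hp1 R') (hp2 R) (hp2 R') (hp3 R) (hp3 R') hn
    have hFF : (F α β (p R).1 (p R).2).natAbs = (F α β (p R').1 (p R').2).natAbs := by
      rcases prop_points (hp1 R).1 (hp1 R').1 hx with ⟨e1, e2⟩ | ⟨e1, e2⟩
      · rw [e1, e2]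
      · rw [e1, e2, F_neg]
    apply Subtype.ext
    rw [← hp4 R, ← hp4 R', hFF]
  have hfin : Finite (LSet α β S ℓ) := Finite.of_injective _ hinj
  refine ⟨hfin, ?_⟩
  have hcard := Nat.card_le_card_of_injective _ hinj
  rw [Nat.card_coe_set_eq, Nat.card_eq_fintype_card, Fintype.card_fin] at hcard
  exact hcard

end Pool.Agent.W863.RB
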